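import Pool.Agent.Z125.UN.Schur

/-!
# Quotients by linear algebraic groups: definitions
-/

set_option autoImplicit false

open CategoryTheory Limits Pretriangulated MonoidalCategory

namespace Pool.Agent.Q73.QG

open Pool.Agent.TH137.DG

universe v u w

section

variable {C : Type u} [Category.{v} C]

/-- `F (F (… (F A)))`, with `n` factors `F`. -/
def iterObj (F : C ⥤ C) (A : C) : ℕ → C
  | 0 => A
  | n + 1 => F.obj (iterObj F A n)

/-- The composite `A ⟶ F A ⟶ F (F A) ⟶ … ⟶ F (F (… (F A)))` of `c`, `F c`, `F (F c)`, …. -/
def iterMap (F : C ⥤ C) {A : C} (c : A ⟶ F.obj A) : ∀ n : ℕ, A ⟶ iterObj F A n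
  | 0 => 𝟙 A
  | n + 1 => c ≫ F.map (iterMap F c n)

end

section

variable {C : Type u} [Category.{v} C] [Preadditive C] [HasZeroObject C] [HasShift C ℤ]
  [∀ n : ℤ, (shiftFunctor C n).Additive] [Pretriangulated C]

/-- A class `P` of objects which is closed under cones, shifts, the twist `F` and direct
summands. -/
structure IsThick (F : C ⥤ C) (P : C → Prop) : Prop where
  cone : ∀ T ∈ distinguishedTriangles (C := C), P T.obj₁ → P T.obj₂ → P T.obj₃
  shift : ∀ (A : C) (n : ℤ), P A → P (A⟦n⟧)
  twist : ∀ A : C, P A → P (F.obj A)
  retract : ∀ {A B : C} (s : A ⟶ B) (r : B ⟶ A), s ≫ r = 𝟙 A → P B → P A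

/-- The finite direct sums of twists of `B`, one of the twists being `B` itself. -/
inductive TwistSum [HasBinaryBiproducts C] (F : C ⥤ C) (B : C) : C → Prop
  | one : TwistSum F B B
  | add (A : C) (n : ℕ) : TwistSum F B A → TwistSum F B (A ⊞ iterObj F B n)

end

/-- Smooth varieties over an algebraically closed field with their motives, five kinds of morphisms
`X ⟶ Y` between them, and a class of varieties. Intended meaning:

* `Affine X Y`: `X ⟶ Y` is a torsor under a vector bundle on `Y`, or under a connected unipotent
  group;
* `Mult X Y`: `X ⟶ Y` is a torsor under the multiplicative group;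
* `Flag X Y`: there are a torsor `Z ⟶ Y` under a connected linear algebraic group `G` and a Borel
  subgroup `B` of `G` with `X = Z / B`;
* `Abel X Y`: `X ⟶ Y` is a torsor under an abelian variety (possibly trivial);
* `Fin X Y`: `X ⟶ Y` is a torsor under a finite group;
* `Special X`: for some `N` the variety `X` is a closed subvariety of the affine space of dimension
  `N` whose ideal is generated by `N - dim X` elements, and its tangent bundle is trivial. -/
structure Varieties (C : Type u) where
  Var : Type w
  M : Var → C
  Affine : Var → Var → Prop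
  Mult : Var → Var → Prop
  Flag : Var → Var → Prop
  Abel : Var → Var → Prop
  Fin : Var → Var → Prop
  Special : Var → Prop

namespace Varieties

variable {C : Type u} (D : Varieties.{u, w} C)

/-- `X ⟶ Y` is a torsor under a connected linear algebraic group `G`, with Borel subgroup `B` and
unipotent radical `U` of `B`: it factors as `X ⟶ X / U ⟶ X / B ⟶ Y`, where the second morphism
is a composite of torsors under the multiplicative group. -/
def LinearTorsor (X Y : D.Var) : Prop :=
  ∃ X₁ X₂ : D.Var, D.Affine X X₁ ∧ Relation.ReflTransGen D.Mult X₁ X₂ ∧ D.Flag X₂ Y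

/-- `X ⟶ Y` is a torsor under a connected algebraic group `G`: it factors as `X ⟶ X / L ⟶ Y` with
`L` connected linear and `G / L` an abelian variety (Chevalley). -/
def ConnectedTorsor (X Y : D.Var) : Prop :=
  ∃ Z : D.Var, D.LinearTorsor X Z ∧ D.Abel Z Y

/-- `X ⟶ Y` is a torsor under an algebraic group `G`: it factors as `X ⟶ X / H ⟶ Y` with `H` the
connected component of `G` and `G / H` finite. -/
def Torsor (X Y : D.Var) : Prop :=
  ∃ Z : D.Var, D.ConnectedTorsor X Z ∧ D.Fin Z Y

/-- `X` and `Y` are joined by a chain, in both directions, of torsors under vector bundles and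
under connected linear algebraic groups. -/
def LinearlyJoined : D.Var → D.Var → Prop :=
  Relation.EqvGen (fun X Y => D.Affine X Y ∨ D.LinearTorsor X Y)

/-- `X` and `Y` are joined by a chain, in both directions, of torsors under vector bundles and
under connected algebraic groups. -/
def Joined : D.Var → D.Var → Prop :=
  Relation.EqvGen (fun X Y => D.Affine X Y ∨ D.ConnectedTorsor X Y)

/-- For every `Y` there are a torsor `Y' ⟶ Y` under a vector bundle (Jouanolou, Thomason: with `Y'`
affine) and a torsor `X ⟶ Y'` under a general linear group (the bundle of frames of the tangent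
bundle of `Y'`) such that `X` is special (the tangent bundle of `X` is trivial; its conormal
bundles in affine spaces are stably free, hence free in large affine spaces by a theorem of Bass;
so `X` is a complete intersection by a theorem of Mohan Kumar). -/
def FrameBundles : Prop :=
  ∀ Y : D.Var, ∃ Y' X : D.Var, D.Affine Y' Y ∧ D.LinearTorsor X Y' ∧ D.Special X

end Varieties

section

variable {C : Type u} [Category.{v} C] [Preadditive C] [HasZeroObject C] [HasShift C ℤ]
  [∀ n : ℤ, (shiftFunctor C n).Additive] [Pretriangulated C] [HasBinaryBiproducts C]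

/-- The properties of the motives of smooth varieties over an algebraically closed field in the
category of geometric motives with rational coefficients, `F A = A(1)[2]`, which are used.

* `affine`: homotopy invariance;
* `gysin`: for a torsor `X` under the multiplicative group over `Y`, with line bundle `L`, the
  Gysin triangle `M X ⟶ M Y ⟶ M Y (1)[2] ⟶ M X [1]`, whose second morphism is the cap product
  with the first Chern class of `L`; the first Chern class is nilpotent;
* `flag`: the motive of a flag bundle (Leray-Hirsch theorem, rational coefficients);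
* `finite`: transfer. -/
structure IsMotivic (F : C ⥤ C) (D : Varieties.{u, w} C) : Prop where
  affine : ∀ X Y : D.Var, D.Affine X Y → Nonempty (D.M X ≅ D.M Y)
  gysin : ∀ X Y : D.Var, D.Mult X Y → ∃ (p : D.M X ⟶ D.M Y) (c : D.M Y ⟶ F.obj (D.M Y))
    (d : F.obj (D.M Y) ⟶ (D.M X)⟦(1 : ℤ)⟧),
      Triangle.mk p c d ∈ distinguishedTriangles (C := C) ∧ ∃ n : ℕ, iterMap F c n = 0
  flag : ∀ X Y : D.Var, D.Flag X Y → ∃ A : C, TwistSum F (D.M Y) A ∧ Nonempty (D.M X ≅ A)
  finite : ∀ X Y : D.Var, D.Fin X Y → ∃ (s : D.M Y ⟶ D.M X) (r : D.M X ⟶ D.M Y),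
    s ≫ r = 𝟙 (D.M Y)

end

section

variable {C : Type u} [Category.{v} C] [MonoidalCategory C] [SymmetricCategory C]
  [Preadditive C] [Linear ℚ C] [HasZeroObject C] [HasShift C ℤ]
  [∀ n : ℤ, (shiftFunctor C n).Additive] [Pretriangulated C]

/-- The known closure properties of Schur-finite objects (Deligne, Guletskii, Mazza): two out of
three, shifts, Tate twists, tensor products. -/
structure SchurClosed (F : C ⥤ C) : Prop where
  cone : ∀ T ∈ distinguishedTriangles (C := C), IsSchurFinite T.obj₁ → IsSchurFinite T.obj₂ →
    IsSchurFinite T.obj₃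
  shift : ∀ (A : C) (n : ℤ), IsSchurFinite A → IsSchurFinite (A⟦n⟧)
  twist : ∀ A : C, IsSchurFinite A → IsSchurFinite (F.obj A)
  tensor : ∀ A B : C, IsSchurFinite A → IsSchurFinite B → IsSchurFinite (A ⊗ B)

/-- The motive of a torsor `X` under an abelian variety `B` over `Y` is, with rational coefficients,
the tensor product of the motives of `B` and of `Y`, and the motive of `Y` is a direct summand of
it; the motive of an abelian variety is Schur-finite (Kimura, Shermenev). -/
def AbelianTorsors (D : Varieties.{u, w} C) : Prop :=
  ∀ X Y : D.Var, D.Abel X Y → (∃ B : C, IsSchurFinite B ∧ Nonempty (D.M X ≅ B ⊗ D.M Y)) ∧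
    ∃ (s : D.M Y ⟶ D.M X) (r : D.M X ⟶ D.M Y), s ≫ r = 𝟙 (D.M Y)

end

end Pool.Agent.Q73.QG
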