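import Pool.Agent.Q73.QG.Defs

/-!
# Quotients by linear algebraic groups
-/

set_option autoImplicit false

open CategoryTheory Limits Pretriangulated MonoidalCategory ZeroObject

namespace Pool.Agent.Q73.QG

open Pool.Agent.TH137.DG

universe v u w

section

variable {C : Type u} [Category.{v} C] [Preadditive C] [HasZeroObject C] [HasShift C ℤ]
  [∀ n : ℤ, (shiftFunctor C n).Additive] [Pretriangulated C] {F : C ⥤ C} {P : C → Prop}

namespace IsThick

variable (hP : IsThick F P)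

include hP

lemma iso {A B : C} (e : A ≅ B) (h : P A) : P B := hP.retract e.inv e.hom e.inv_hom_id h

lemma of_shift {A : C} (h : P (A⟦(1 : ℤ)⟧)) : P A := by
  have h1 := hP.shift _ (-1) h
  exact hP.iso ((shiftEquiv C (1 : ℤ)).unitIso.app A).symm h1

lemma obj2 {T : Triangle C} (hT : T ∈ distinguishedTriangles (C := C)) (h1 : P T.obj₁)
    (h3 : P T.obj₃) : P T.obj₂ :=
  hP.cone T.invRotate (inv_rot_of_distTriang T hT) (hP.shift _ (-1) h3) h1

lemma obj1 {T : Triangle C} (hT : T ∈ distinguishedTriangles (C := C)) (h2 : P T.obj₂)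
    (h3 : P T.obj₃) : P T.obj₁ :=
  hP.of_shift (hP.cone T.rotate (rot_of_distTriang T hT) h2 h3)

lemma zero {A : C} (h : P A) {Z : C} (hZ : IsZero Z) : P Z :=
  hP.retract (0 : Z ⟶ A) 0 (hZ.eq_of_src _ _) h

lemma biprod [HasBinaryBiproducts C] {A B : C} (hA : P A) (hB : P B) : P (A ⊞ B) :=
  hP.obj2 (binaryBiproductTriangle_distinguished A B) hA hB

end IsThick

/-- The cone of `f` lies in `P`. -/
def ConeIn (P : C → Prop) {A B : C} (f : A ⟶ B) : Prop :=
  ∃ (Z : C) (g : B ⟶ Z) (h : Z ⟶ A⟦(1 : ℤ)⟧),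
    Triangle.mk f g h ∈ distinguishedTriangles (C := C) ∧ P Z

lemma ConeIn.comp [IsTriangulated C] (hP : IsThick F P) {A B D : C} {f : A ⟶ B} {g : B ⟶ D}
    (hf : ConeIn P f) (hg : ConeIn P g) : ConeIn P (f ≫ g) := by
  obtain ⟨Z₁, v₁, w₁, h₁, p₁⟩ := hf
  obtain ⟨Z₂, v₂, w₂, h₂, p₂⟩ := hg
  obtain ⟨Z₃, v₃, w₃, h₃⟩ := distinguished_cocone_triangle (f ≫ g)
  have o := Triangulated.someOctahedron rfl h₁ h₂ h₃
  exact ⟨Z₃, v₃, w₃, h₃, hP.obj2 o.mem p₁ p₂⟩

lemma ConeIn.id (hP : IsThick F P) {Q : C} (hQ : P Q) (A : C) : ConeIn P (𝟙 A) :=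
  ⟨0, 0, 0, contractible_distinguished A, hP.zero hQ (isZero_zero C)⟩

lemma ConeIn.map [F.CommShift ℤ] [F.IsTriangulated] (hP : IsThick F P) {A B : C} {f : A ⟶ B}
    (hf : ConeIn P f) : ConeIn P (F.map f) := by
  obtain ⟨Z, g, h, hT, hZ⟩ := hf
  exact ⟨F.obj Z, F.map g, F.map h ≫ (F.commShiftIso (1 : ℤ)).hom.app A,
    F.map_distinguished _ hT, hP.twist _ hZ⟩

lemma ConeIn.zero (hP : IsThick F P) {A B : C} (h : ConeIn P (0 : A ⟶ B)) : P A := by
  obtain ⟨Z, g, w, hT, hZ⟩ := h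
  have h0 : 𝟙 (A⟦(1 : ℤ)⟧) ≫ (0 : A ⟶ B)⟦(1 : ℤ)⟧' = 0 := by
    rw [Functor.map_zero, comp_zero]
  obtain ⟨s, hs⟩ := Triangle.coyoneda_exact₁ _ hT (𝟙 (A⟦(1 : ℤ)⟧)) h0
  exact hP.of_shift (hP.retract s w hs.symm hZ)

/-- If a nilpotent morphism `A ⟶ F A` has its cone in `P`, then `A` lies in `P`. -/
theorem nilpotent_cone [IsTriangulated C] [F.CommShift ℤ] [F.IsTriangulated] (hP : IsThick F P)
    {A : C} {c : A ⟶ F.obj A} (hc : ConeIn P c) {n : ℕ} (hn : iterMap F c n = 0) : P A := by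
  have hQ : ∃ Q : C, P Q := by
    obtain ⟨Z, _, _, _, hZ⟩ := hc
    exact ⟨Z, hZ⟩
  obtain ⟨Q, hQ⟩ := hQ
  have key : ∀ m : ℕ, ConeIn P (iterMap F c m) := by
    intro m
    induction m with
    | zero => exact ConeIn.id hP hQ A
    | succ m ih => exact hc.comp hP (ih.map hP)
  have h := key n
  rw [hn] at h
  exact h.zero hP

lemma gysin_iff [IsTriangulated C] [F.CommShift ℤ] [F.IsTriangulated] (hP : IsThick F P)
    {X Y : C} {p : X ⟶ Y} {c : Y ⟶ F.obj Y} {d : F.obj Y ⟶ X⟦(1 : ℤ)⟧}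
    (hT : Triangle.mk p c d ∈ distinguishedTriangles (C := C)) {n : ℕ}
    (hn : iterMap F c n = 0) : P X ↔ P Y := by
  constructor
  · intro hX
    exact nilpotent_cone hP ⟨X⟦(1 : ℤ)⟧, d, _, rot_of_distTriang _ hT, hP.shift X 1 hX⟩ hn
  · intro hY
    exact hP.obj1 hT hY (hP.twist _ hY)

lemma iterObj_mem (hP : IsThick F P) {B : C} (hB : P B) : ∀ n : ℕ, P (iterObj F B n)
  | 0 => hB
  | n + 1 => hP.twist _ (iterObj_mem hP hB n)

lemma twistSum_iff [HasBinaryBiproducts C] (hP : IsThick F P) {A B : C} (h : TwistSum F B A) :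
    P A ↔ P B := by
  induction h with
  | one => exact Iff.rfl
  | add A n _ ih =>
    constructor
    · intro h
      exact ih.1 (hP.retract biprod.inl biprod.fst biprod.inl_fst h)
    · intro h
      exact hP.biprod (ih.2 h) (iterObj_mem hP h n)

variable [HasBinaryBiproducts C] [IsTriangulated C] [F.CommShift ℤ] [F.IsTriangulated]
  {D : Varieties.{u, w} C}

lemma torus_iff (hD : IsMotivic F D) (hP : IsThick F P) {X Y : D.Var}
    (h : Relation.ReflTransGen D.Mult X Y) : P (D.M X) ↔ P (D.M Y) := by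
  induction h with
  | refl => exact Iff.rfl
  | tail _ hXY ih =>
    obtain ⟨p, c, d, hT, n, hn⟩ := hD.gysin _ _ hXY
    exact ih.trans (gysin_iff hP hT hn)

lemma linear_iff (hD : IsMotivic F D) (hP : IsThick F P) {X Y : D.Var}
    (h : D.LinearTorsor X Y) : P (D.M X) ↔ P (D.M Y) := by
  obtain ⟨X₁, X₂, h1, h2, h3⟩ := h
  obtain ⟨e⟩ := hD.affine _ _ h1
  obtain ⟨A, hA, ⟨e'⟩⟩ := hD.flag _ _ h3
  have a1 : P (D.M X) ↔ P (D.M X₁) := ⟨hP.iso e, hP.iso e.symm⟩
  have a3 : P (D.M X₂) ↔ P A := ⟨hP.iso e', hP.iso e'.symm⟩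
  exact a1.trans ((torus_iff hD hP h2).trans (a3.trans (twistSum_iff hP hA)))

lemma eqvGen_iff {S : Type*} {r : S → S → Prop} {Q : S → Prop}
    (h : ∀ x y, r x y → (Q x ↔ Q y)) {x y : S} (hxy : Relation.EqvGen r x y) : Q x ↔ Q y := by
  induction hxy with
  | rel x y hr => exact h x y hr
  | refl => exact Iff.rfl
  | symm x y _ ih => exact ih.symm
  | trans x y z _ _ ih1 ih2 => exact ih1.trans ih2

lemma affine_iff (hD : IsMotivic F D) (hP : IsThick F P) {X Y : D.Var} (h : D.Affine X Y) :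
    P (D.M X) ↔ P (D.M Y) := by
  obtain ⟨e⟩ := hD.affine _ _ h
  exact ⟨hP.iso e, hP.iso e.symm⟩

lemma linearlyJoined_iff (hD : IsMotivic F D) (hP : IsThick F P) {X Y : D.Var}
    (h : D.LinearlyJoined X Y) : P (D.M X) ↔ P (D.M Y) := by
  refine eqvGen_iff (Q := fun X => P (D.M X)) (fun x y hr => ?_) h
  rcases hr with hr | hr
  · exact affine_iff hD hP hr
  · exact linear_iff hD hP hr

end

section

variable {C : Type u} [Category.{v} C] [MonoidalCategory C] [SymmetricCategory C]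
  [Preadditive C] [Linear ℚ C] [HasZeroObject C] [HasShift C ℤ]
  [∀ n : ℤ, (shiftFunctor C n).Additive] [Pretriangulated C] {F : C ⥤ C}

lemma isThick_schur (h : SchurClosed F) : IsThick F (fun A : C => IsSchurFinite A) where
  cone := h.cone
  shift := h.shift
  twist := h.twist
  retract := fun s r hsr hB => Pool.Agent.Z125.UN.sf_retract s r hsr hB

variable [HasBinaryBiproducts C] [IsTriangulated C] [F.CommShift ℤ] [F.IsTriangulated]
  {D : Varieties.{u, w} C}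

lemma connected_iff (hS : SchurClosed F) (hD : IsMotivic F D) (hA : AbelianTorsors D)
    {X Y : D.Var} (h : D.ConnectedTorsor X Y) :
    IsSchurFinite (D.M X) ↔ IsSchurFinite (D.M Y) := by
  obtain ⟨Z, h1, h2⟩ := h
  obtain ⟨⟨B, hB, e⟩, s, r, hsr⟩ := hA Z Y h2
  refine (linear_iff hD (isThick_schur hS) h1).trans ⟨fun hZ => ?_, fun hY => ?_⟩
  · exact Pool.Agent.Z125.UN.sf_retract s r hsr hZ
  · exact (Pool.Agent.Z125.UN.sf_iso e).2 (hS.tensor B _ hB hY)

lemma torsor_imp (hS : SchurClosed F) (hD : IsMotivic F D) (hA : AbelianTorsors D)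
    {X Y : D.Var} (h : D.Torsor X Y) (hX : IsSchurFinite (D.M X)) :
    IsSchurFinite (D.M Y) := by
  obtain ⟨Z, h1, h2⟩ := h
  obtain ⟨s, r, hsr⟩ := hD.finite _ _ h2
  exact Pool.Agent.Z125.UN.sf_retract s r hsr ((connected_iff hS hD hA h1).1 hX)

lemma joined_iff (hS : SchurClosed F) (hD : IsMotivic F D) (hA : AbelianTorsors D)
    {X Y : D.Var} (h : D.Joined X Y) : IsSchurFinite (D.M X) ↔ IsSchurFinite (D.M Y) := by
  refine eqvGen_iff (Q := fun X => IsSchurFinite (D.M X)) (fun x y hr => ?_) h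
  rcases hr with hr | hr
  · exact affine_iff hD (isThick_schur hS) hr
  · exact connected_iff hS hD hA hr

end

end Pool.Agent.Q73.QG
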